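import Pool.Agent.helper81.CI.Spec

set_option autoImplicit false

open MeasureTheory Set Filter Topology
open scoped ENNReal Pointwise
open Pool.Agent.helper81.CW Pool.Agent.CL

noncomputable section

namespace Pool.Agent.CI

/-- Scaling a symmetric convex subset of the scaled body back. -/
theorem SGN_sup {n : ℕ} (C : Set (E n)) (w : ℝ) (hw : 0 < w) :
    (⨆ A : {A : Set (E n) // A ⊆ (fun x : E n => w⁻¹ • (x - 0)) '' C ∧ Convex ℝ A ∧
      CentrallySymmetric A}, volume A.1) ≤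
    ENNReal.ofReal (w⁻¹ ^ n) *
      ⨆ A : {A : Set (E n) // A ⊆ C ∧ Convex ℝ A ∧ CentrallySymmetric A}, volume A.1 := by
  refine iSup_le ?_
  rintro ⟨A', h1, h2, c, h3⟩
  have hw' : w ≠ 0 := hw.ne'
  set A : Set (E n) := (fun x : E n => w⁻¹ • x) ⁻¹' A' with hA
  have e1 : A ⊆ C := by
    intro x hx
    obtain ⟨y, hy, hyx⟩ := h1 hx
    have h4 : y = x := by
      have h5 : w⁻¹ • y = w⁻¹ • x := by simpa using hyx
      exact smul_right_injective _ (inv_ne_zero hw') h5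
    rw [← h4]
    exact hy
  have e2 : Convex ℝ A := by
    intro x hx y hy a b ha hb hab
    show w⁻¹ • (a • x + b • y) ∈ A'
    rw [smul_add, smul_comm w⁻¹ a, smul_comm w⁻¹ b]
    exact h2 hx hy ha hb hab
  have e3 : CentrallySymmetric A := by
    refine ⟨w • c, fun x => ?_⟩
    have h4 : w⁻¹ • ((2 : ℝ) • w • c - x) = (2 : ℝ) • c - w⁻¹ • x := by
      rw [smul_sub, smul_comm w⁻¹ (2 : ℝ), inv_smul_smul₀ hw']
    show w⁻¹ • x ∈ A' ↔ w⁻¹ • ((2 : ℝ) • w • c - x) ∈ A'
    rw [h4]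
    exact h3 _
  have e4 : A' = w⁻¹ • A := by
    ext x
    rw [Set.mem_smul_set]
    constructor
    · intro hx
      exact ⟨w • x, by show w⁻¹ • w • x ∈ A'; rwa [inv_smul_smul₀ hw'], inv_smul_smul₀ hw' x⟩
    · rintro ⟨y, hy, rfl⟩
      exact hy
  have e5 : volume A' = ENNReal.ofReal (w⁻¹ ^ n) * volume A := by
    rw [e4, Measure.addHaar_smul, finrank_euclideanSpace_fin,
      abs_of_nonneg (by positivity)]
  show volume A' ≤ _
  rw [e5]
  gcongr
  exact le_iSup (fun A : {A : Set (E n) // A ⊆ C ∧ Convex ℝ A ∧ CentrallySymmetric A} =>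
    volume A.1) ⟨A, e1, e2, e3⟩

/-- Normalisation of the width for the inner measure of symmetry. -/
theorem SGN (hJ3 : J3_stmt) : SGN_stmt := by
  intro n
  apply le_antisymm
  · refine le_iInf ?_
    rintro ⟨C, hC⟩
    exact iInf_le (fun C : {C : Set (E n) // ∃ w, ConstWidth C w} => innerSym C.1) ⟨C, 1, hC⟩
  · unfold sigma
    refine le_iInf ?_
    rintro ⟨C, w, hC⟩
    have hw : 0 < w := hC.2.2.2.1
    obtain ⟨h1, h2⟩ := hJ3 n C w w⁻¹ 0 hC (inv_pos.mpr hw)
    rw [inv_mul_cancel₀ hw.ne'] at h1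
    refine (iInf_le (fun C : {C : Set (E n) // ConstWidth C 1} => innerSym C.1) ⟨_, h1⟩).trans ?_
    show innerSym ((fun x => w⁻¹ • (x - 0)) '' C) ≤ innerSym C
    unfold innerSym
    rw [h2]
    refine (ENNReal.div_le_div_right (SGN_sup C w hw) _).trans (le_of_eq ?_)
    have h0 : ENNReal.ofReal (w⁻¹ ^ n) ≠ 0 := by
      rw [Ne, ENNReal.ofReal_eq_zero, not_le]
      positivity
    exact ENNReal.mul_div_mul_left _ _ h0 ENNReal.ofReal_ne_top

end Pool.Agent.CI
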